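import Pool.Agent.H82.BO.Targets

/-!
# Row YNU: the parameters on the side of `y`
-/

set_option autoImplicit false

namespace Pool.Agent.H29.BO

open Finset Pool.Agent.H82.BO

theorem two_rpow_le {ε : ℝ} (h0 : 0 < ε) (h1 : ε ≤ 1 / 4) :
    (2 : ℝ) ^ (-(3 * ε)) ≤ 1 - ε := by
  have hL1 : (0.6931471803 : ℝ) < Real.log 2 := Real.log_two_gt_d9
  have hL2 : Real.log 2 < 0.6931471808 := Real.log_two_lt_d9
  have e1 : (2 : ℝ) ^ (-(3 * ε)) = (Real.exp (Real.log 2 * (3 * ε)))⁻¹ := by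
    rw [Real.rpow_def_of_pos (by norm_num), mul_neg, Real.exp_neg]
  rw [e1]
  have e2 := Real.add_one_le_exp (Real.log 2 * (3 * ε))
  have e3 : 0 < Real.log 2 * (3 * ε) + 1 := by positivity
  refine (inv_anti₀ e3 e2).trans ?_
  rw [inv_le_iff_one_le_mul₀ e3]
  nlinarith [mul_pos h0 (by linarith : (0 : ℝ) < Real.log 2)]

theorem pf_YNU : T_YNU := by
  refine ⟨64, ?_⟩
  intro ε n t k l M w s₀ hε hε4 ht hk hl hM hw hs
  simp only [Nat.cast_ofNat] at hk hl
  have hlog : (1 : ℝ) ≤ (Nat.log 2 t : ℝ) := by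
    exact_mod_cast Nat.log_pos (by norm_num) ht
  have hA : 64 ≤ ε ^ 2 * k := le_trans (by linarith) hk
  have hkpos : (0 : ℝ) < k := by
    by_contra h
    have h2 : (k : ℝ) = 0 := le_antisymm (not_lt.1 h) (Nat.cast_nonneg k)
    rw [h2] at hA
    norm_num at hA
  have hek : 64 / ε ≤ ε * k := by
    rw [div_le_iff₀ hε]
    calc (64 : ℝ) ≤ ε ^ 2 * k := hA
      _ = ε * k * ε := by ring
  have hL1 : (0.6931471803 : ℝ) < Real.log 2 := Real.log_two_gt_d9
  have hL2 : Real.log 2 < 0.6931471808 := Real.log_two_lt_d9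
  obtain ⟨z, hz⟩ : ∃ z : ℕ, z = ⌈8 / ε⌉₊ := ⟨_, rfl⟩
  have hz1 : 8 ≤ ε * z := by
    have h1 : 8 / ε ≤ z := by rw [hz]; exact Nat.le_ceil _
    rwa [div_le_iff₀ hε, mul_comm] at h1
  have hz2 : (z : ℝ) ≤ 9 / ε := by
    have h1 : (z : ℝ) < 8 / ε + 1 := by
      rw [hz]; exact Nat.ceil_lt_add_one (by positivity)
    have h2 : (1 : ℝ) ≤ 1 / ε := by
      rw [le_div_iff₀ hε]; linarith
    have h3 : 8 / ε + 1 / ε = 9 / ε := by rw [← add_div]; norm_num
    linarith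
  have hz3 : ε * z ≤ 9 := by
    rw [le_div_iff₀ hε] at hz2
    linarith
  have hz4 : (z : ℝ) ≤ ε * k / 4 := by
    have h1 : 64 / ε = 64 * (1 / ε) := by ring
    have h2 : 9 / ε = 9 * (1 / ε) := by ring
    have h3 : 0 < 1 / ε := by positivity
    rw [h1] at hek
    rw [h2] at hz2
    linarith
  have hz0 : (1 : ℝ) ≤ z := by
    by_contra h
    have h2 : (z : ℝ) < 1 := not_le.1 h
    nlinarith
  refine ⟨z, ?_, ?_, ?_⟩
  · -- (i)
    have h1 : (1 - ε ^ 2 / 4) ≤ Real.exp (-(ε ^ 2 / 4)) := Real.one_sub_le_exp_neg _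
    have h2 : 0 ≤ 1 - ε ^ 2 / 4 := by nlinarith
    have h3 : (1 - ε ^ 2 / 4) ^ l ≤ Real.exp (-(ε ^ 2 / 4)) ^ l := pow_le_pow_left₀ h2 h1 l
    rw [← Real.exp_nat_mul] at h3
    have h4 : ((2 : ℝ) ^ (-(ε * k))) ^ z = Real.exp (z * (Real.log 2 * (-(ε * k)))) := by
      rw [Real.rpow_def_of_pos (by norm_num), ← Real.exp_nat_mul]
    rw [h4]
    refine h3.trans (Real.exp_le_exp.2 ?_)
    have h5 : Real.log 2 * (ε * z * k) ≤ 9 * k := by
      have h6 : ε * z * k ≤ 9 * k := mul_le_mul_of_nonneg_right hz3 hkpos.le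
      have h7 : 0 ≤ ε * z * k := by positivity
      nlinarith
    nlinarith
  · -- (ii)
    have h1 := two_rpow_le hε hε4
    have hn0 : (0 : ℝ) ≤ n := Nat.cast_nonneg n
    have h2 : (w + k : ℝ) ≤ (1 - ε) * n := hw.trans (mul_le_mul_of_nonneg_right h1 hn0)
    have hen : 0 ≤ ε * n := by positivity
    have hwn : w ≤ n := by
      have : (w : ℝ) ≤ n := by nlinarith
      exact_mod_cast this
    have h3 : (2 : ℝ) ^ (n - w) = (2 : ℝ) ^ ((n : ℝ) - w) := by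
      rw [← Nat.cast_sub hwn, Real.rpow_natCast]
    rw [h3]
    have h4 : (2 : ℝ) ^ (ε * n + k) ≤ (2 : ℝ) ^ ((n : ℝ) - w) :=
      Real.rpow_le_rpow_of_exponent_le (by norm_num) (by linarith)
    refine le_trans ?_ h4
    rw [Real.rpow_add (by norm_num), mul_comm, Real.rpow_natCast]
    have h5 : (z : ℝ) ≤ (2 : ℝ) ^ k := by
      have h6 : (k : ℝ) ≤ (2 : ℝ) ^ k := by exact_mod_cast (Nat.lt_two_pow_self (n := k)).le
      have h7 : ε * k / 4 ≤ k := by nlinarith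
      linarith
    exact mul_le_mul_of_nonneg_left h5 (by positivity)
  · -- (iii)
    have hS : (1 : ℝ) ≤ (s₀ : ℝ) + 1 := by
      have : (0 : ℝ) ≤ s₀ := Nat.cast_nonneg _
      linarith
    have f1 : (M : ℝ) ^ (s₀ + 1) ≤ (2 : ℝ) ^ ((1 + 2 * ε) * k * ((s₀ : ℝ) + 1)) := by
      have h1 := pow_le_pow_left₀ (Nat.cast_nonneg M) hM (s₀ + 1)
      refine h1.trans (le_of_eq ?_)
      rw [← Real.rpow_natCast, ← Real.rpow_mul (by norm_num)]
      push_cast
      rfl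
    have f2 : ((2 : ℝ) ^ n) ^ z = (2 : ℝ) ^ ((n : ℝ) * z) := by
      rw [← pow_mul, ← Real.rpow_natCast]
      push_cast
      rfl
    have f3 : (z : ℝ) ^ z ≤ (2 : ℝ) ^ (ε * k / 4 * z) := by
      have h1 : (z : ℝ) ≤ (2 : ℝ) ^ (ε * k / 4) := by
        have h2 : (z : ℝ) ≤ (2 : ℝ) ^ (z : ℝ) := by
          rw [Real.rpow_natCast]
          exact_mod_cast (Nat.lt_two_pow_self (n := z)).le
        exact h2.trans (Real.rpow_le_rpow_of_exponent_le (by norm_num) hz4)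
      have h3 := pow_le_pow_left₀ (Nat.cast_nonneg z) h1 z
      refine h3.trans (le_of_eq ?_)
      rw [← Real.rpow_natCast, ← Real.rpow_mul (by norm_num)]
    have f4 : ((2 : ℝ) ^ (-(ε * k))) ^ z = (2 : ℝ) ^ (-(ε * k) * z) := by
      rw [← Real.rpow_natCast, ← Real.rpow_mul (by norm_num)]
    have f5 : ((z : ℝ) ^ z * ((2 : ℝ) ^ (-(ε * k))) ^ z) ^ (s₀ + 1) ≤
        (2 : ℝ) ^ ((ε * k / 4 * z + -(ε * k) * z) * ((s₀ : ℝ) + 1)) := by
      rw [f4]
      have h1 : (z : ℝ) ^ z * (2 : ℝ) ^ (-(ε * k) * z) ≤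
          (2 : ℝ) ^ (ε * k / 4 * z + -(ε * k) * z) := by
        rw [Real.rpow_add (by norm_num)]
        exact mul_le_mul_of_nonneg_right f3 (by positivity)
      have h2 := pow_le_pow_left₀ (by positivity) h1 (s₀ + 1)
      refine h2.trans (le_of_eq ?_)
      rw [← Real.rpow_natCast, ← Real.rpow_mul (by norm_num)]
      push_cast
      rfl
    have f6 : (2 : ℝ) ^ (n + 1) = (2 : ℝ) ^ ((n : ℝ) + 1) := by
      rw [← Real.rpow_natCast]
      push_cast
      rfl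
    rw [f2, f6]
    have g1 : (M : ℝ) ^ (s₀ + 1) * (2 : ℝ) ^ ((n : ℝ) * z) ≤
        (2 : ℝ) ^ ((1 + 2 * ε) * k * ((s₀ : ℝ) + 1)) * (2 : ℝ) ^ ((n : ℝ) * z) :=
      mul_le_mul_of_nonneg_right f1 (by positivity)
    have g2 := mul_le_mul g1 f5 (by positivity) (by positivity)
    have g3 := mul_le_mul_of_nonneg_right g2
      (by positivity : (0 : ℝ) ≤ (2 : ℝ) ^ ((n : ℝ) + 1))
    refine g3.trans ?_
    rw [← Real.rpow_add (by norm_num), ← Real.rpow_add (by norm_num),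
      ← Real.rpow_add (by norm_num)]
    refine Real.rpow_le_one_of_one_le_of_nonpos (by norm_num) ?_
    set S : ℝ := (s₀ : ℝ) + 1 with hSdef
    have hkS : 0 < (k : ℝ) * S := by positivity
    have b1 : (n : ℝ) + 1 ≤ ε * (k * S) / 4 := by linarith [hs]
    have b2 : (n : ℝ) * z ≤ ε * (k * S) / 4 * z := by
      refine mul_le_mul_of_nonneg_right (by linarith) (by linarith)
    have b3 : (1 + 2 * ε) * k * S ≤ 3 / 2 * (k * S) := by
      have : (1 + 2 * ε) ≤ 3 / 2 := by linarith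
      calc (1 + 2 * ε) * k * S = (1 + 2 * ε) * (k * S) := by ring
        _ ≤ 3 / 2 * (k * S) := mul_le_mul_of_nonneg_right this hkS.le
    have b4 : 8 * (k * S) ≤ ε * z * (k * S) := mul_le_mul_of_nonneg_right hz1 hkS.le
    have b5 : ε * (k * S) ≤ ε * (k * S) * z := by
      have : 0 ≤ ε * (k * S) := by positivity
      nlinarith
    have b6 : (ε * k / 4 * z + -(ε * k) * z) * S = -(3 / 4) * (ε * z * (k * S)) := by ring
    have b7 : ε * (k * S) / 4 * z = 1 / 4 * (ε * z * (k * S)) := by ring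
    have b8 : ε * (k * S) * z = ε * z * (k * S) := by ring
    rw [b6]
    rw [b7] at b2
    rw [b8] at b5
    linarith

end Pool.Agent.H29.BO
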